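import Pool.Agent.H27.QCAssouadProof

/-!
# Lipschitz quasiconformal maps of `ℝⁿ` can increase the Assouad dimension

The answer to Q1 is negative, in every dimension `n ≥ 2`: there are a Lipschitz quasiconformal
map `f` of `ℝⁿ` onto itself and a set `S` with `dim_A f(S) > dim_A S`.

Idea: being Lipschitz is only a restriction on how far the map expands; a large scale Cantor set
`S = { ∑_{j ∈ A} 16^(j+1) • e : A finite }` is mapped onto `{ ∑_{j ∈ A} 8^(j+1) • e : A finite }`
by a quasiconformal map which contracts the level `k` clusters (size `16^k`) to clusters of size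
`8^k`, is radial in the ring around each cluster, and is a similarity elsewhere.  The first set has
Assouad dimension at most `1/4`, its image has Assouad dimension at least `1/3`.
-/

open Set Filter Topology MeasureTheory
open scoped ENNReal NNReal ContDiff

namespace Pool.Agent.Results.MP_c78a2a_an.LipschitzQCAssouad

open Pool.Agent.H27.QCAssouad

/-- **Main result.** For every `n ≥ 2` there are a Lipschitz quasiconformal map `f : ℝⁿ → ℝⁿ` and a
set `S ⊆ ℝⁿ` with `dim_A f(S) > dim_A S`. -/
theorem result : ∀ n : ℕ, 2 ≤ n → ∃ f : En n → En n,
    IsQuasiconformal f ∧ (∃ L : ℝ≥0, LipschitzWith L f) ∧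
      ∃ S : Set (En n), assouadDim S < assouadDim (f '' S) :=
  main

end Pool.Agent.Results.MP_c78a2a_an.LipschitzQCAssouad
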